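import Pool.Agent.ATZ.Stmts1
import Pool.Agent.Helper92_AT5.GL5

/-!
# Squad ATZ, row POZ: positivity
-/

set_option autoImplicit false

open scoped BigOperators

noncomputable section

namespace Pool.Agent.PP.TB.H92

open Pool.Agent.Helper51_AWC Pool.Agent.Helper79_WRA Pool.Agent.PP Pool.Agent.PP.KF
open Pool.Agent.PP.K9 Pool.Agent.PP.K9.H97 Pool.Agent.PP.H75 Pool.Agent.PP.T3 Pool.Agent.PP.T2
open Pool.Agent.PP.T5

attribute [local instance] Ideal.Quotient.field

/-- POZ -/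
theorem poz (nz5 : T5.Nz5Stmt) : PozStmt := by
  intro ℓ _ M _ hM G _ _ e V Z γ b hZ z hz
  classical
  have := Fintype.ofFinite (Cu z)
  have hmm : ∀ χ : G → ℂ, mm M ℓ (Cu z) z (b z) χ χ = (((Nat.card (Cu z) : ℝ)⁻¹ *
      ∑ s ∈ Finset.univ.filter (fun s : Cu z => Reg ℓ s),
        Complex.normSq (gv M (Cu z) (z * s) (b z) χ) : ℝ) : ℂ) := by
    intro χ
    rw [mm, T5.H92.finsum_reg]
    push_cast
    congr 1
    refine Finset.sum_congr rfl fun s _ => ?_
    rw [Complex.mul_conj]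
  have hC : (0 : ℝ) < Nat.card (Cu z) := by exact_mod_cast Nat.card_pos
  constructor
  · intro χ _
    refine ⟨_, ?_, hmm χ⟩
    exact mul_nonneg (inv_nonneg.2 hC.le) (Finset.sum_nonneg fun s _ => Complex.normSq_nonneg _)
  · intro χ hχ
    refine ⟨_, ?_, hmm χ⟩
    apply mul_pos (inv_pos.2 hC)
    refine Finset.sum_pos' (fun s _ => Complex.normSq_nonneg _) ⟨1, ?_, ?_⟩
    · rw [Finset.mem_filter]
      refine ⟨Finset.mem_univ _, ?_⟩
      unfold Reg
      rw [orderOf_one]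
      exact Nat.coprime_one_left ℓ
    · rw [Complex.normSq_pos, Subgroup.coe_one, mul_one]
      exact nz5 ℓ M hM G e V z (b z) (hZ.lb z hz).1 χ hχ

end Pool.Agent.PP.TB.H92
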